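import Pool.Agent.Helper99.WP.GoalsK

open Finset

set_option autoImplicit false

namespace Pool.Agent.Helper31.WP

open Pool.Agent.Helper99.WP
open Pool.Agent.Helper99.ERW

/-- squared distance to `y` -/
noncomputable def sq31 {d : ℕ} (y z : Site d) : ℝ := ∑ l, ((z l - y l : ℤ) : ℝ) ^ 2

theorem sq31_add {d : ℕ} (y x : Site d) (l : Fin d) :
    sq31 y (x + ev l) = sq31 y x + (2 * ((x l - y l : ℤ) : ℝ) + 1) := by
  have h : sq31 y (x + ev l) - sq31 y x = 2 * ((x l - y l : ℤ) : ℝ) + 1 := by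
    unfold sq31
    rw [← Finset.sum_sub_distrib]
    rw [Finset.sum_eq_single l]
    · simp only [Pi.add_apply, ev, Pi.single_eq_same]
      push_cast
      ring
    · intro k _ hk
      simp only [Pi.add_apply, ev, Pi.single_eq_of_ne hk]
      simp
    · intro hl
      exact absurd (Finset.mem_univ l) hl
  linarith

theorem sq31_sub {d : ℕ} (y x : Site d) (l : Fin d) :
    sq31 y (x - ev l) = sq31 y x + (-2 * ((x l - y l : ℤ) : ℝ) + 1) := by
  have h : sq31 y (x - ev l) - sq31 y x = -2 * ((x l - y l : ℤ) : ℝ) + 1 := by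
    unfold sq31
    rw [← Finset.sum_sub_distrib]
    rw [Finset.sum_eq_single l]
    · simp only [Pi.sub_apply, ev, Pi.single_eq_same]
      push_cast
      ring
    · intro k _ hk
      simp only [Pi.sub_apply, ev, Pi.single_eq_of_ne hk]
      simp
    · intro hl
      exact absurd (Finset.mem_univ l) hl
  linarith

theorem lap_sq31 {d : ℕ} {κ : ℝ} {p : Site d → Fin d → ℝ} (hp : Ell κ p) (c : ℝ) (y x : Site d) :
    lap p (fun z => c - sq31 y z) x = -1 := by
  unfold lap
  have e : ∀ l, p x l * ((c - sq31 y (x + ev l)) + (c - sq31 y (x - ev l)) - 2 * (c - sq31 y x)) =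
      -(2 * p x l) := by
    intro l
    rw [sq31_add, sq31_sub]
    ring
  rw [Finset.sum_congr rfl fun l _ => e l, Finset.sum_neg_distrib, (hp x).2]

theorem EXT (hGEX : GEX_stmt) (hGCM : GCM_stmt) (hQQQ : QQQ_stmt) : EXT_stmt := by
  intro d κ p hκ hp r y
  obtain ⟨qmem, _, qnb, _, _, _⟩ := hQQQ d
  have hs0 : ∀ z, 0 ≤ sq31 y z := fun z => Finset.sum_nonneg fun l _ => by positivity
  have hs1 : ∀ z ∈ Q (r + 1) y, sq31 y z ≤ d * ((r : ℝ) + 1) ^ 2 := by
    intro z hz
    rw [qmem] at hz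
    unfold sq31
    calc ∑ l, ((z l - y l : ℤ) : ℝ) ^ 2 ≤ ∑ _l : Fin d, ((r : ℝ) + 1) ^ 2 := by
          refine Finset.sum_le_sum fun l _ => ?_
          have h := hz l
          have h2 : |((z l - y l : ℤ) : ℝ)| ≤ (r : ℝ) + 1 := by
            rw [← Int.cast_abs]
            exact_mod_cast h
          rw [← sq_abs]
          exact pow_le_pow_left₀ (abs_nonneg _) h2 2
      _ = d * ((r : ℝ) + 1) ^ 2 := by simp
  have hs2 : ∀ z, z ∉ Q r y → ((r : ℝ) + 1) ^ 2 ≤ sq31 y z := by
    intro z hz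
    rw [qmem] at hz
    push Not at hz
    obtain ⟨l, hl⟩ := hz
    unfold sq31
    have h1 : ((r : ℝ) + 1) ≤ |((z l - y l : ℤ) : ℝ)| := by
      rw [← Int.cast_abs]
      have : (r : ℤ) + 1 ≤ |z l - y l| := by omega
      exact_mod_cast this
    have h2 : ((r : ℝ) + 1) ^ 2 ≤ ((z l - y l : ℤ) : ℝ) ^ 2 := by
      rw [← sq_abs ((z l - y l : ℤ) : ℝ)]
      exact pow_le_pow_left₀ (by positivity) h1 2
    refine h2.trans ?_
    exact Finset.single_le_sum (f := fun l => ((z l - y l : ℤ) : ℝ) ^ 2)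
      (fun l _ => by positivity) (Finset.mem_univ l)
  refine ⟨fun D hD z => ?_, fun z hz => ?_⟩
  · by_cases hz : z ∈ D
    · have h := (hGCM d κ p hκ hp D).2.1 (fun _ => 1) (fun z => d * ((r : ℝ) + 1) ^ 2 - sq31 y z)
        (fun x _ => by rw [lap_sq31 hp]; norm_num)
        (fun x hx l => ⟨fun _ => by
            have := hs1 _ (qnb r y x (hD hx) l).1
            linarith, fun _ => by
            have := hs1 _ (qnb r y x (hD hx) l).2
            linarith⟩) z hz
      have := hs0 z
      linarith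
    · rw [((hGEX d κ p hκ hp D (fun _ => 1)).1).1 z hz]
      positivity
  · have h := (hGCM d κ p hκ hp (Q r y)).1 (fun _ => 1) (fun z => ((r : ℝ) + 1) ^ 2 - sq31 y z)
      (fun x _ => by rw [lap_sq31 hp]; norm_num)
      (fun x hx l => ⟨fun h => by
          have := hs2 _ h
          linarith, fun h => by
          have := hs2 _ h
          linarith⟩) z hz
    exact h

end Pool.Agent.Helper31.WP
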