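import Pool.Agent.Helper99.WP.GoalsW

open Finset

set_option autoImplicit false

namespace Pool.Agent.Helper31.WP

open Pool.Agent.Helper99.WP
open Pool.Agent.Helper99.ERW

theorem PR1 (hTRM : TRM_stmt) : PR1_stmt := by
  intro V _ _ W N hW
  have hnn : ∀ a : V → Fin N → Option V, 0 ≤ prb W N a := fun a =>
    Finset.prod_nonneg fun y _ => Finset.prod_nonneg fun k _ => (hW y k).1 _
  have hsum : ∑ a : V → Fin N → Option V, prb W N a = 1 := by
    unfold prb
    have e1 : ∑ a : V → Fin N → Option V, ∏ y, ∏ k : Fin N, W y k (a y k) =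
        ∏ y : V, ∑ b : Fin N → Option V, ∏ k : Fin N, W y k (b k) :=
      (Fintype.prod_sum (fun (y : V) (b : Fin N → Option V) => ∏ k : Fin N, W y k (b k))).symm
    rw [e1]
    refine Finset.prod_eq_one fun y _ => ?_
    have e2 : ∑ b : Fin N → Option V, ∏ k : Fin N, W y k (b k) =
        ∏ k : Fin N, ∑ c : Option V, W y k c :=
      (Fintype.prod_sum (fun (k : Fin N) (c : Option V) => W y k c)).symm
    rw [e2]
    exact Finset.prod_eq_one fun k _ => (hW y k).2
  refine ⟨hnn, hsum, fun x => ⟨?_, fun i => ⟨?_, ?_, ?_⟩, ?_⟩⟩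
  · unfold vis
    simp only [Nat.zero_le, if_true, mul_one]
    exact hsum
  · exact Finset.sum_nonneg fun a _ => mul_nonneg (hnn a) (by split_ifs <;> norm_num)
  · rw [← hsum]
    refine Finset.sum_le_sum fun a _ => ?_
    split_ifs
    · rw [mul_one]
    · rw [mul_zero]; exact hnn a
  · refine Finset.sum_le_sum fun a _ => mul_le_mul_of_nonneg_left ?_ (hnn a)
    split_ifs with h1 h2
    · exact le_rfl
    · omega
    · norm_num
    · exact le_rfl
  · intro i hi
    refine Finset.sum_eq_zero fun a _ => ?_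
    have h := ((hTRM V N).2.2.2 a).2.2 x
    rw [if_neg (by omega), mul_zero]

end Pool.Agent.Helper31.WP
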